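import Pool.Agent.BD46.Fin

/-!
MP_24b0ce_an. The sharp bound `∑ δ(a, f) ≤ max {Λ₁(ρ), Λ₂(ρ)}` for every meromorphic `f` of finite
order `ρ ≥ 1` whose Borel directions form a set of measure zero. More generally, it is enough that
almost every direction which is a Borel direction and a `T` direction is one along which `f`
approaches at most one of the deficient values, and rays may be replaced by logarithmic spirals.
-/

set_option autoImplicit false

open Filter MeasureTheory Topology

namespace Pool.Agent.Results.MP_24b0ce_an.BorelDirections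

/-- The multiplicity of `z` as a solution of `f z = a` (the order of the pole for `a = ∞`). -/
noncomputable def mult (f : ℂ → ℂ) : WithTop ℂ → ℂ → ℕ
  | ⊤, z => (-(meromorphicOrderAt f z).untop₀).toNat
  | (a : ℂ), z => ((meromorphicOrderAt (fun w => f w - a) z).untop₀).toNat

/-- The part in `1 ≤ |z| ≤ R` of the sector between the logarithmic spirals
`arg z = φ ± δ + s log |z|` (an ordinary sector of opening `2 δ` if `s = 0`). -/
def Sector (s φ δ R : ℝ) : Set ℂ :=
  {z | ∃ t ψ : ℝ, 1 ≤ t ∧ t ≤ R ∧ |ψ - φ| < δ ∧ z = circleMap 0 t (ψ + s * Real.log t)}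

/-- `n(R, φ, δ; a)`: the number of the `a`-points of `f` in the sector `Sector s φ δ R`, counted
with multiplicities. -/
noncomputable def cnt (f : ℂ → ℂ) (a : WithTop ℂ) (s φ δ R : ℝ) : ENNReal :=
  ∑' z : Sector s φ δ R, (mult f a z : ENNReal)

/-- The ray `arg z = φ` (for `s ≠ 0`: the spiral `arg z = φ + s log |z|`) is a Borel direction of
order `ρ` of `f`: for every `δ > 0`, with at most two exceptional values `a`,
`limsup log n(R, φ, δ; a) / log R ≥ ρ`. -/
def Borel (f : ℂ → ℂ) (ρ s φ : ℝ) : Prop :=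
  ∀ δ : ℝ, 0 < δ → ∀ A : Fin 3 → WithTop ℂ, Function.Injective A →
    ∃ j, ∀ l : ℝ, l < ρ → ∃ᶠ R in atTop, ENNReal.ofReal (R ^ l) < cnt f (A j) s φ δ R

/-- The same in the scale of the characteristic `T(r, f)`: for every `δ > 0`, with at most two
exceptional values `a`, `n(R, φ, δ; a)` is not `o(T(2 R, f))`. -/
def Dense (f : ℂ → ℂ) (s φ : ℝ) : Prop :=
  ∀ δ : ℝ, 0 < δ → ∀ A : Fin 3 → WithTop ℂ, Function.Injective A →
    ∃ j, ¬ Tendsto (fun R => cnt f (A j) s φ δ R /
      ENNReal.ofReal (ValueDistribution.characteristic f ⊤ (2 * R))) atTop (𝓝 0)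

/-- The integrand of the proximity function `m(r, a, f)`:
`log⁺ |f(z)|` for `a = ∞` and `log⁺ (1 / |f(z) - a|)` for finite `a`. -/
noncomputable def dens (f : ℂ → ℂ) : WithTop ℂ → ℂ → ℝ
  | ⊤, z => Real.posLog ‖f z‖
  | (a : ℂ), z => Real.posLog ‖f z - a‖⁻¹

/-- In the scale of `T(r, f)`, `f` does not approach `a` along the ray (spiral)
`arg z = φ + s log |z|`. -/
def Away (f : ℂ → ℂ) (s φ : ℝ) (a : WithTop ℂ) : Prop :=
  Tendsto (fun r => dens f a (circleMap 0 r (φ + s * Real.log r)) /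
    ValueDistribution.characteristic f ⊤ r) atTop (𝓝 0)

lemma dens_eq (f : ℂ → ℂ) (a : WithTop ℂ) (z : ℂ) : dens f a z = DW24.near f a z := by
  cases a with
  | top => rfl
  | coe a => rfl

lemma mult_eq (f : ℂ → ℂ) (a : WithTop ℂ) (z : ℂ) : mult f a z = BD46.mult f a z := by
  cases a with
  | top => rfl
  | coe a => rfl

lemma cnt_eq (f : ℂ → ℂ) (a : WithTop ℂ) (s φ δ R : ℝ) :
    cnt f a s φ δ R = BD46.cnt f a (BD46.Sec s φ δ R) := by
  unfold cnt BD46.cnt
  simp only [mult_eq]
  rfl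

lemma away_iff (f : ℂ → ℂ) (s φ : ℝ) (a : WithTop ℂ) : Away f s φ a ↔ BD46.Aw f s φ a := by
  unfold Away BD46.Aw
  simp only [dens_eq]

theorem result :
    ∀ f : ℂ → ℂ, MeromorphicOn f Set.univ →
    ∀ ρ : ℝ, 1 ≤ ρ →
    Filter.limsup
        (fun r : ℝ => ((Real.log (ValueDistribution.characteristic f ⊤ r) / Real.log r : ℝ) : EReal))
        Filter.atTop = (ρ : EReal) →
    ∀ (S : Finset (WithTop ℂ)) (s : ℝ),
      (∀ a ∈ S, ∀ b ∈ S, a ≠ b →
        0 < Filter.liminf
          (fun r : ℝ => ((ValueDistribution.proximity f a r / ValueDistribution.characteristic f ⊤ r : ℝ) : EReal))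
          Filter.atTop →
        0 < Filter.liminf
          (fun r : ℝ => ((ValueDistribution.proximity f b r / ValueDistribution.characteristic f ⊤ r : ℝ) : EReal))
          Filter.atTop →
        ∀ᵐ φ : ℝ, Borel f ρ s φ → Dense f s φ → Away f s φ a ∨ Away f s φ b) →
      (∑ a ∈ S,
        Filter.liminf
          (fun r : ℝ => ((ValueDistribution.proximity f a r / ValueDistribution.characteristic f ⊤ r : ℝ) : EReal))
          Filter.atTop)
      ≤ ((max
            (2 - 2 * Real.sin (Real.pi / 2 * (2 * ρ - (Nat.floor (2 * ρ) : ℝ)))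
                / ((Nat.floor (2 * ρ) : ℝ) + 2 * Real.sin (Real.pi / 2 * (2 * ρ - (Nat.floor (2 * ρ) : ℝ)))))
            (2 - 2 * Real.cos (Real.pi / 2 * (2 * ρ - (Nat.floor (2 * ρ) : ℝ)))
                / ((Nat.floor (2 * ρ) : ℝ) + 1)) : ℝ) : EReal) := by
  intro f hf ρ hρ hord S s hS
  have hfm : Meromorphic f := fun z => hf z (Set.mem_univ z)
  have hρ0 : 0 < ρ := by linarith
  obtain ⟨r, hr, hbig⟩ := BD46.exists_peaks_large hfm hρ0 hord
  refine DW24.sum_def_le_of_sepP hfm hρ hr S (fun _ _ => s) (fun a ha b hb hab h1 h2 =>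
    BD46.sepP_of_ae hfm hρ0 hr s hab ?_)
  filter_upwards [hS a ha b hb hab h1 h2] with φ hφ
  rw [← away_iff, ← away_iff]
  by_cases hB : Borel f ρ s φ
  · by_cases hD : Dense f s φ
    · exact Or.inr (hφ hB hD)
    · left
      unfold Dense at hD
      push Not at hD
      obtain ⟨δ, hδ, A, hA, h3⟩ := hD
      refine BD46.good_of_dense hfm hr hδ hA fun j => ?_
      have h4 := h3 j
      simp only [cnt_eq] at h4
      exact h4
  · left
    unfold Borel at hB
    push Not at hB
    obtain ⟨δ, hδ, A, hA, h3⟩ := hB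
    refine BD46.good_of_borel hr.1 hbig hδ hA fun j => ?_
    obtain ⟨l, hl, h4⟩ := h3 j
    simp only [cnt_eq] at h4
    exact ⟨l, hl, h4⟩

end Pool.Agent.Results.MP_24b0ce_an.BorelDirections
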