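import Pool.Agent.DW24.FinalP

/-!
MP_24b0ce_an. The sharp bound `∑ δ(a, f) ≤ max {Λ₁(ρ), Λ₂(ρ)}` for every meromorphic `f` which has
a sequence of (weak) Polya peaks of order `ρ ≥ 1` near which its deficient values are separated by
arcs of logarithmic spirals. Nothing is assumed away from the peaks. The pitch of the spirals is
arbitrary: it may change from one peak to the next, and it may be unbounded; pitch zero is the
case of locally radial separation. Polya peaks of order `ρ` exist for every `ρ > 0` between the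
lower order and the order of `f` (`exists_peaks` below).
-/

set_option autoImplicit false

open Filter MeasureTheory Topology

namespace Pool.Agent.Results.MP_24b0ce_an.PolyaPeaks

/-- The integrand of the proximity function `m(r, a, f)`:
`log⁺ |f(z)|` for `a = ∞` and `log⁺ (1 / |f(z) - a|)` for finite `a`. -/
noncomputable def dens (f : ℂ → ℂ) : WithTop ℂ → ℂ → ℝ
  | ⊤, z => Real.posLog ‖f z‖
  | (a : ℂ), z => Real.posLog ‖f z - a‖⁻¹

/-- The integral of `dens f a` over the arc `z = r exp (y + i (φ + s y))`, `-h ≤ y ≤ h`, of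
a logarithmic spiral of pitch `s`, with respect to `dy`, divided by the integral of the
characteristic over the same radii `r e^y`. -/
noncomputable def Av (f : ℂ → ℂ) (a : WithTop ℂ) (s : ℝ) (h : ℕ) (r φ : ℝ) : ℝ :=
  (∫ y in (-(h : ℝ))..h, dens f a (circleMap 0 (r * Real.exp y) (φ + s * y))) /
    ∫ y in (-(h : ℝ))..h, ValueDistribution.characteristic f ⊤ (r * Real.exp y)

/-- The values `a` and `b` are separated near the radii `r n` by arcs of logarithmic spirals of
pitch `σ h n`: for every `h ≥ 1` the minimum of the two averages over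
`e^(-h) r n ≤ |z| ≤ e^h r n` tends to zero in measure on `0 < φ ≤ 2π` as `n → ∞`. -/
def Sep (f : ℂ → ℂ) (r : ℕ → ℝ) (σ : ℕ → ℕ → ℝ) (a b : WithTop ℂ) : Prop :=
  ∀ h : ℕ, 1 ≤ h → TendstoInMeasure (volume.restrict (Set.Ioc 0 (2 * Real.pi)))
    (fun (n : ℕ) (φ : ℝ) => min (Av f a (σ h n) h (r n) φ) (Av f b (σ h n) h (r n) φ))
    atTop (fun _ => 0)

/-- `r` is a sequence of (weak) Polya peaks of order `ρ` of the positive function `T`:
for some constant `C` and each `R`, `T t ≤ C (t / r n)^ρ T (r n)` for `r n / R ≤ t ≤ R r n` as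
soon as `n` is large. -/
def Peaks (T : ℝ → ℝ) (ρ : ℝ) (r : ℕ → ℝ) : Prop :=
  Tendsto r atTop atTop ∧ (∀ n, 0 < T (r n)) ∧ ∃ C : ℝ, ∀ R : ℝ, 1 ≤ R →
    ∀ᶠ n in atTop, ∀ t ∈ Set.Icc (r n / R) (R * r n), T t ≤ C * (t / r n) ^ ρ * T (r n)

lemma dens_eq (f : ℂ → ℂ) (a : WithTop ℂ) (z : ℂ) : dens f a z = DW24.near f a z := by
  cases a with
  | top => rfl
  | coe a => rfl

lemma Av_eq (f : ℂ → ℂ) (a : WithTop ℂ) (s : ℝ) (h : ℕ) (r φ : ℝ) :
    Av f a s h r φ = DW24.AvP f a s h r φ := by
  unfold Av DW24.AvP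
  simp only [dens_eq]

lemma sep_of (f : ℂ → ℂ) (r : ℕ → ℝ) (σ : ℕ → ℕ → ℝ) (a b : WithTop ℂ) (hs : Sep f r σ a b) :
    DW24.SepP f r σ a b := by
  intro h hh ε hε
  have h1 := hs h hh (ENNReal.ofReal ε) (ENNReal.ofReal_pos.2 hε)
  refine tendsto_of_tendsto_of_tendsto_of_le_of_le tendsto_const_nhds h1 (fun _ => zero_le) ?_
  intro k
  simp only
  rw [Measure.restrict_apply' measurableSet_Ioc]
  refine measure_mono ?_
  rintro θ ⟨h2, h3⟩
  refine ⟨?_, h2⟩
  show ENNReal.ofReal ε ≤ edist (min (Av f a (σ h k) h (r k) θ) (Av f b (σ h k) h (r k) θ)) 0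
  rw [edist_dist, Real.dist_eq, sub_zero]
  refine ENNReal.ofReal_le_ofReal ?_
  rw [Av_eq, Av_eq]
  exact h3.le.trans (le_abs_self _)

/-- Polya peaks (with constant arbitrarily close to `1`) of every order `ρ > 0` between the lower
order and the order of `f`. -/
theorem exists_peaks {f : ℂ → ℂ} (hf : MeromorphicOn f Set.univ) {ρ : ℝ} (hρ : 0 < ρ)
    (hlow : liminf
      (fun r : ℝ => ((Real.log (ValueDistribution.characteristic f ⊤ r) / Real.log r : ℝ) : EReal)) atTop
        ≤ (ρ : EReal))
    (hupp : (ρ : EReal) ≤ limsup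
      (fun r : ℝ => ((Real.log (ValueDistribution.characteristic f ⊤ r) / Real.log r : ℝ) : EReal)) atTop) :
    ∃ r : ℕ → ℝ, Peaks (ValueDistribution.characteristic f ⊤) ρ r := by
  have hfm : Meromorphic f := fun z => hf z (Set.mem_univ z)
  obtain ⟨r, h1, h2, h3⟩ := DW24.exists_peaks hfm hρ hlow hupp
  exact ⟨r, h1, h2, 1 + 1, fun R hR => h3 1 one_pos R hR⟩

/-- A sufficient condition: on almost every logarithmic spiral `arg z = φ + s log |z|` of some
fixed pitch `s`, at most one of the two values is approached. (`s = 0`: rays.) -/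
theorem sep_of_spirals {f : ℂ → ℂ} (hf : MeromorphicOn f Set.univ)
    (hT : Tendsto (fun r => ValueDistribution.characteristic f ⊤ r) atTop atTop)
    (a b : WithTop ℂ) (s : ℝ)
    (hR : ∀ᵐ φ : ℝ,
      Tendsto (fun r => dens f a (circleMap 0 r (φ + s * Real.log r)) /
        ValueDistribution.characteristic f ⊤ r) atTop (𝓝 0) ∨
      Tendsto (fun r => dens f b (circleMap 0 r (φ + s * Real.log r)) /
        ValueDistribution.characteristic f ⊤ r) atTop (𝓝 0))
    {r : ℕ → ℝ} (hr : Tendsto r atTop atTop) :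
    Sep f r (fun _ _ => s) a b := by
  have hfm : Meromorphic f := fun z => hf z (Set.mem_univ z)
  intro h hh
  have hh' : (1 : ℝ) ≤ h := by exact_mod_cast hh
  -- measurability
  have hmeas : ∀ c : WithTop ℂ, ∀ x : ℝ, Measurable (fun φ => Av f c s h x φ) := by
    intro c x
    simp only [Av_eq]
    exact DW24.AvP_measurable hfm c s h x
  have hgm : ∀ x : ℝ, Measurable (fun φ => min (Av f a s h x φ) (Av f b s h x φ)) := fun x =>
    (hmeas a x).min (hmeas b x)
  have hper : ∀ (c : WithTop ℂ) (x φ : ℝ), Av f c s h x (φ + 2 * Real.pi) = Av f c s h x φ := by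
    intro c x φ
    rw [Av_eq, Av_eq, DW24.AvP_per]
  -- convergence in the frame which rotates with the spirals
  have hmain : TendstoInMeasure (volume.restrict (Set.Ioc 0 (2 * Real.pi)))
      (fun (n : ℕ) (φ : ℝ) => min (Av f a s h (r n) (φ + s * Real.log (r n)))
        (Av f b s h (r n) (φ + s * Real.log (r n)))) atTop (fun _ => 0) := by
    refine tendstoInMeasure_of_tendsto_ae
      (fun n => ((hgm (r n)).comp (measurable_id.add_const (s * Real.log (r n)))).aestronglyMeasurable) ?_
    refine ae_restrict_of_ae ?_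
    have hiT : ∀ x : ℝ, 0 < x → ∀ u v : ℝ,
        IntervalIntegrable (fun y => ValueDistribution.characteristic f ⊤ (x * Real.exp y)) volume u v := by
      intro x hx u v
      refine Monotone.intervalIntegrable fun y z hyz => ?_
      exact ValueDistribution.characteristic_monotoneOn hfm (mul_pos hx (Real.exp_pos y))
        (mul_pos hx (Real.exp_pos z)) (mul_le_mul_of_nonneg_left (Real.exp_le_exp.2 hyz) hx.le)
    have hlarge : ∀ r₀ : ℝ, ∀ᶠ n in atTop, 0 < r n ∧ ∀ y ∈ Set.Icc (-(h : ℝ)) h, r₀ ≤ r n * Real.exp y := by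
      intro r₀
      filter_upwards [hr.eventually_gt_atTop 0, hr.eventually_ge_atTop (r₀ / Real.exp (-(h : ℝ)))] with n h1 h2
      refine ⟨h1, fun y hy => ?_⟩
      rw [div_le_iff₀ (Real.exp_pos _)] at h2
      exact h2.trans (mul_le_mul_of_nonneg_left (Real.exp_le_exp.2 hy.1) h1.le)
    have hnn : ∀ c : WithTop ℂ, ∀ᶠ n : ℕ in atTop, ∀ φ, 0 ≤ Av f c s h (r n) φ := by
      intro c
      filter_upwards [hlarge 1] with n hn φ
      refine div_nonneg (intervalIntegral.integral_nonneg (by linarith) fun y _ => ?_)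
        (intervalIntegral.integral_nonneg (by linarith) fun y hy => ?_)
      · rw [dens_eq]; exact DW24.near_nonneg _ _ _
      · exact ValueDistribution.characteristic_nonneg (hn.2 y hy)
    have key : ∀ c : WithTop ℂ, ∀ φ,
        Tendsto (fun r => dens f c (circleMap 0 r (φ + s * Real.log r)) /
          ValueDistribution.characteristic f ⊤ r) atTop (𝓝 0) →
        ∀ ε : ℝ, 0 < ε → ∀ᶠ n : ℕ in atTop, Av f c s h (r n) (φ + s * Real.log (r n)) ≤ ε := by
      intro c φ hc ε hε
      have h1 := (hc.eventually_lt_const hε).and (hT.eventually_gt_atTop 0)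
      obtain ⟨r₀, hr₀⟩ := eventually_atTop.1 h1
      filter_upwards [hlarge r₀] with n hn
      obtain ⟨hn0, hn1⟩ := hn
      have hT0 : 0 < ∫ y in (-(h : ℝ))..h, ValueDistribution.characteristic f ⊤ (r n * Real.exp y) := by
        refine intervalIntegral.intervalIntegral_pos_of_pos_on (hiT (r n) hn0 _ _) (fun y hy => ?_)
          (by linarith)
        exact (hr₀ _ (hn1 y ⟨hy.1.le, hy.2.le⟩)).2
      unfold Av
      have e5 : ∀ y : ℝ, φ + s * Real.log (r n) + s * y = φ + s * Real.log (r n * Real.exp y) := fun y => by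
        rw [Real.log_mul hn0.ne' (Real.exp_pos y).ne', Real.log_exp]; ring
      simp only [e5]
      rw [div_le_iff₀ hT0, ← intervalIntegral.integral_const_mul]
      by_cases hi : IntervalIntegrable (fun y => dens f c (circleMap 0 (r n * Real.exp y)
          (φ + s * Real.log (r n * Real.exp y)))) volume (-(h : ℝ)) h
      · refine intervalIntegral.integral_mono_on (by linarith) hi
          ((hiT (r n) hn0 _ _).const_mul ε) (fun y hy => ?_)
        obtain ⟨e7, e8⟩ := hr₀ _ (hn1 y hy)
        rw [div_lt_iff₀ e8] at e7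
        exact e7.le
      · rw [intervalIntegral.integral_undef hi, intervalIntegral.integral_const_mul]
        exact mul_nonneg hε.le hT0.le
    filter_upwards [hR] with φ hφ
    rw [Metric.tendsto_atTop]
    intro ε hε
    have h3 : ∀ᶠ n : ℕ in atTop, min (Av f a s h (r n) (φ + s * Real.log (r n)))
        (Av f b s h (r n) (φ + s * Real.log (r n))) ≤ ε / 2 := by
      rcases hφ with hφ | hφ
      · filter_upwards [key a φ hφ (ε / 2) (by positivity)] with k hk using (min_le_left _ _).trans hk
      · filter_upwards [key b φ hφ (ε / 2) (by positivity)] with k hk using (min_le_right _ _).trans hk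
    obtain ⟨N, hN⟩ := eventually_atTop.1 (h3.and ((hnn a).and (hnn b)))
    refine ⟨N, fun k hk => ?_⟩
    obtain ⟨h4, h5, h6⟩ := hN k hk
    rw [Real.dist_eq, sub_zero, abs_of_nonneg (le_min (h5 _) (h6 _))]
    linarith
  -- back to the fixed frame
  intro ε hε
  refine (hmain ε hε).congr fun n => ?_
  simp only
  rw [Measure.restrict_apply' measurableSet_Ioc, Measure.restrict_apply' measurableSet_Ioc]
  have hA : MeasurableSet {φ : ℝ | ε ≤ edist (min (Av f a s h (r n) φ) (Av f b s h (r n) φ)) 0} :=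
    measurableSet_le measurable_const ((hgm (r n)).edist measurable_const)
  exact (DW24.measure_shift hA (fun φ => by simp only [Set.mem_ofPred_eq, hper]) (s * Real.log (r n))).symm

theorem result :
    ∀ f : ℂ → ℂ, MeromorphicOn f Set.univ →
    ∀ (ρ : ℝ) (r : ℕ → ℝ), 1 ≤ ρ → Peaks (ValueDistribution.characteristic f ⊤) ρ r →
    ∀ (S : Finset (WithTop ℂ)) (σ : ℕ → ℕ → ℝ),
      (∀ a ∈ S, ∀ b ∈ S, a ≠ b →
        0 < Filter.liminf
          (fun r : ℝ => ((ValueDistribution.proximity f a r / ValueDistribution.characteristic f ⊤ r : ℝ) : EReal))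
          Filter.atTop →
        0 < Filter.liminf
          (fun r : ℝ => ((ValueDistribution.proximity f b r / ValueDistribution.characteristic f ⊤ r : ℝ) : EReal))
          Filter.atTop →
        Sep f r σ a b) →
      (∑ a ∈ S,
        Filter.liminf
          (fun r : ℝ => ((ValueDistribution.proximity f a r / ValueDistribution.characteristic f ⊤ r : ℝ) : EReal))
          Filter.atTop)
      ≤ ((max
            (2 - 2 * Real.sin (Real.pi / 2 * (2 * ρ - (Nat.floor (2 * ρ) : ℝ)))
                / ((Nat.floor (2 * ρ) : ℝ) + 2 * Real.sin (Real.pi / 2 * (2 * ρ - (Nat.floor (2 * ρ) : ℝ)))))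
            (2 - 2 * Real.cos (Real.pi / 2 * (2 * ρ - (Nat.floor (2 * ρ) : ℝ)))
                / ((Nat.floor (2 * ρ) : ℝ) + 1)) : ℝ) : EReal) := by
  intro f hf ρ r hρ hr S σ hS
  have hfm : Meromorphic f := fun z => hf z (Set.mem_univ z)
  exact DW24.sum_def_le_of_sepP hfm hρ hr S σ
    (fun a ha b hb hab h1 h2 => sep_of f r σ a b (hS a ha b hb hab h1 h2))

end Pool.Agent.Results.MP_24b0ce_an.PolyaPeaks
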